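import Mathlib
import Pool.Agent.H586R3.OP.Stmts2
import Pool.Agent.H586R3.OP.A1b
import Pool.Agent.H586R3.OP.A2b
import Pool.Agent.H586R3.OP.A3b
import Pool.Agent.H586R3.OP.A4b

set_option autoImplicit false

namespace Pool.Agent.Results.MP_4c107d_co.LowerBound

/-- **Lower bound `f(n) ≥ 2n-2`.**  For every `k` with `1 ≤ k < 2n-2` the statement `P(n,k)` fails:
some family of `k` trees, each with exactly `n` vertices in each class, does not pack into
`K_{2n-1,k}`. -/
theorem result (n k : ℕ) (hk : 1 ≤ k) (h : k + 2 < 2 * n) :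
    ¬ ∀ (V : Fin k → Type) [∀ i, Fintype (V i)] (G : ∀ i, SimpleGraph (V i)),
        (∀ i, (G i).IsTree ∧ ∃ c : V i → Bool, (∀ u v, (G i).Adj u v → c u ≠ c v) ∧
          Nat.card {v // c v = true} = n ∧ Nat.card {v // c v = false} = n) →
        ∃ f : ∀ i, V i → Fin (2 * n - 1) ⊕ Fin k,
          (∀ i, Function.Injective (f i)) ∧
          (∀ i u v, (G i).Adj u v →
            (completeBipartiteGraph (Fin (2 * n - 1)) (Fin k)).Adj (f i u) (f i v)) ∧
          ∀ i j, i ≠ j → ∀ u v u' v', (G i).Adj u v → (G j).Adj u' v' →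
            s(f i u, f i v) ≠ s(f j u', f j v') :=
  H586OP2.noPack H586OP2.A1b.taskA1 H586OP2.A2b.taskA2 H586OP2.A3b.taskA3 H586OP2.A4b.taskA4 n k hk h

end Pool.Agent.Results.MP_4c107d_co.LowerBound
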