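import Mathlib
import Pool.Agent.H586R3.TP.Stmts
import Pool.Agent.H586R3.TP.Count2
import Pool.Agent.H586R3.TP.TaskR
import Pool.Agent.H586R3.TP.TaskS
import Pool.Agent.H586R3.TP.TaskX
import Pool.Agent.H586R3.TP.TaskL1
import Pool.Agent.H586R3.TP.TaskL2
import Pool.Agent.H586R3.TP.TaskG
import Pool.Agent.H509R3.TP.D
import Pool.Agent.H224R3.TP.TaskA

set_option autoImplicit false

namespace Pool.Agent.Results.MP_4c107d_co.PackingThreshold

/-- **Finiteness part of Q1 of MP_4c107d: `f(n) < ∞` for every `n ≥ 1`.**  For every `n ≥ 1` there is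
`k₀` such that for all `k ≥ k₀` every family of `k` trees, each having exactly `n` vertices in each
class, packs into `K_{2n-1,k}`. -/
theorem result (n : ℕ) (hn : 1 ≤ n) :
    ∃ k₀ : ℕ, ∀ k : ℕ, k₀ ≤ k →
      ∀ (V : Fin k → Type) [∀ i, Fintype (V i)] (G : ∀ i, SimpleGraph (V i)),
        (∀ i, (G i).IsTree ∧ ∃ c : V i → Bool, (∀ u v, (G i).Adj u v → c u ≠ c v) ∧
          Nat.card {v // c v = true} = n ∧ Nat.card {v // c v = false} = n) →
        ∃ f : ∀ i, V i → Fin (2 * n - 1) ⊕ Fin k,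
          (∀ i, Function.Injective (f i)) ∧
          (∀ i u v, (G i).Adj u v →
            (completeBipartiteGraph (Fin (2 * n - 1)) (Fin k)).Adj (f i u) (f i v)) ∧
          ∀ i j, i ≠ j → ∀ u v u' v', (G i).Adj u v → (G j).Adj u' v' →
            s(f i u, f i v) ≠ s(f j u', f j v') :=
  H586TP.final H586TP.TaskG853.taskG H586TP.TaskA.taskA H586TP.TaskR.taskR H586TP.TaskS.taskS
    H586TP.D.taskD (H586TP.count H586TP.D.taskD) H586TP.TaskX.taskX H586TP.TaskL1F.taskL1
    H586TP.TaskL2File.taskL2 n hn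

end Pool.Agent.Results.MP_4c107d_co.PackingThreshold
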